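import Mathlib
import Pool.Agent.Lib.MP_b75ab8_co.Defs
import Pool.Agent.Lib.MP_b75ab8_co_LowerBound.Bound

namespace Pool.Agent.Results.MP_b75ab8_co.LowerBound

open Pool.Agent.MP_b75ab8_co Filter Topology

/-- Let `d ≥ 1`. Every partition of `[n]^d` (`n ≥ 1`) into nonempty boxes in which every
axis-parallel line meets at least `k ≥ 1` boxes has at least `1 + (k-1) exp (√(2(d+1)) - 2)` boxes.
Consequently, if `q k` is the eventual value of `p(n,d,k)` and `q k / k` tends to `C`, then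
`exp (√(2(d+1)) - 2) ≤ C`. -/
theorem result (d : ℕ) (hd : 1 ≤ d) :
    (∀ k n : ℕ, 1 ≤ k → 1 ≤ n → ∀ P : Finset (Fin d → Finset (Fin n)),
      IsBoxPartition P → IsPiercing k P →
        Real.exp (√(2 * ((d : ℝ) + 1)) - 2) * ((k : ℝ) - 1) + 1 ≤ (P.card : ℝ)) ∧
    (∀ (q : ℕ → ℕ) (C : ℝ), (∀ k : ℕ, 2 ≤ k → ∀ᶠ n in atTop, pNum n d k = q k) →
      Tendsto (fun k : ℕ => (q k : ℝ) / k) atTop (𝓝 C) →
        Real.exp (√(2 * ((d : ℝ) + 1)) - 2) ≤ C) :=
  ⟨fun _ _ hk hn _ hP hPk => LowerBound.card_ge hd hk hn hP hPk,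
    fun q C hq hC => LowerBound.le_const hd q C hq hC⟩

end Pool.Agent.Results.MP_b75ab8_co.LowerBound
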