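import Mathlib
import Pool.Agent.Lib.MP_b75ab8_co_SubUpper.Main

namespace Pool.Agent.Results.MP_b75ab8_co.SubexpUpper

open Pool.Agent.MP_b75ab8_co Filter Topology

/-- For every dimension `d ≥ 2` there is a number `N` with `d N ≤ exp (6000 d^(2/3) (log d)^2)` such
that for every `k ≥ 1` and every `n ≥ N k` the grid `[n]^d` has a partition into nonempty boxes such
that every axis-parallel line meets at least `k` boxes, with at most `d N k + N^d` boxes.
Consequently, if `q k` is the eventual value of `p(n,d,k)` and `q k / k` tends to `C`, then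
`C ≤ exp (6000 d^(2/3) (log d)^2)`. -/
theorem result (d : ℕ) (hd : 2 ≤ d) :
    (∃ N : ℕ, (d : ℝ) * N ≤ Real.exp (6000 * (d : ℝ) ^ (2 / 3 : ℝ) * (Real.log d) ^ 2) ∧
      ∀ k n : ℕ, 1 ≤ k → N * k ≤ n →
        ∃ P : Finset (Fin d → Finset (Fin n)), IsBoxPartition P ∧ IsPiercing k P ∧
          P.card ≤ d * N * k + N ^ d) ∧
    (∀ (q : ℕ → ℕ) (C : ℝ), (∀ k : ℕ, 2 ≤ k → ∀ᶠ n in atTop, pNum n d k = q k) →
      Tendsto (fun k : ℕ => (q k : ℝ) / k) atTop (𝓝 C) →
      C ≤ Real.exp (6000 * (d : ℝ) ^ (2 / 3 : ℝ) * (Real.log d) ^ 2)) :=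
  ⟨Pool.Agent.MP_b75ab8_co.SubUpper.exists_family d hd,
    fun q C hq hC => Pool.Agent.MP_b75ab8_co.SubUpper.const_le d hd q C hq hC⟩

end Pool.Agent.Results.MP_b75ab8_co.SubexpUpper
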