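import Mathlib
import Pool.Agent.Lib.MP_b75ab8_co.Construction

namespace Pool.Agent.Results.MP_b75ab8_co.UpperBound

open Pool.Agent.MP_b75ab8_co Filter Topology

/-- For every dimension `d`, every `k ≥ 1` and every `n ≥ 2^d k` the grid `[n]^d` has a partition
into nonempty boxes such that every axis-parallel line meets at least `k` boxes, with at most
`d 2^(d-1) k + 2^(d(d-1))` boxes. Consequently, if `q k` is the eventual value of `p(n,d,k)` and
`q k / k` tends to `C`, then `C ≤ d 2^(d-1)`. -/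
theorem result (d : ℕ) :
    (∀ k n : ℕ, 1 ≤ k → 2 ^ d * k ≤ n →
      ∃ P : Finset (Fin d → Finset (Fin n)), IsBoxPartition P ∧ IsPiercing k P ∧
        P.card ≤ d * 2 ^ (d - 1) * k + 2 ^ (d * (d - 1))) ∧
    (∀ (q : ℕ → ℕ) (C : ℝ), (∀ k : ℕ, 2 ≤ k → ∀ᶠ n in atTop, pNum n d k = q k) →
      Tendsto (fun k : ℕ => (q k : ℝ) / k) atTop (𝓝 C) → C ≤ (d : ℝ) * 2 ^ (d - 1)) :=
  ⟨fun _ _ hk hn => exists_partition hk hn, fun q C hq hC => const_le q C hq hC⟩

end Pool.Agent.Results.MP_b75ab8_co.UpperBound
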